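import Mathlib
import Pool.Agent.Helper28.HD.Defs

set_option autoImplicit false

/-!
Module M4: uniform quasi-wideness implies bounded length of the splitter game.
-/

namespace Pool.Agent.Helper96.HD

open SimpleGraph Pool.Agent.Helper28.HD

variable {V : Type}

/-- A history of `n` rounds of the splitter game: the arenas are `M 0 ⊇ M 1 ⊇ ...`, the
`i`-th move of connector is `v i ∈ M i`; splitter has deleted `v i` and, for `i < j`, a short path
inside `M i` from `v i` to `v j` before round `j + 1`. -/
structure Hist (G : SimpleGraph V) (R n : ℕ) (v : ℕ → V) (M : ℕ → Set V) : Prop where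
  mem : ∀ i, i < n → v i ∈ M i
  anti : ∀ i, i < n → M (i + 1) ⊆ M i
  near : ∀ i, i < n → ∀ x ∈ M (i + 1), Near G (M i) R (v i) x
  del : ∀ i, i < n → v i ∉ M (i + 1)
  path : ∀ i j, i < j → j < n → ∃ F : Set V, F ⊆ M i ∧ Disjoint F (M (j + 1)) ∧
    Near G F R (v i) (v j)

lemma Hist.anti' {G : SimpleGraph V} {R n : ℕ} {v : ℕ → V} {M : ℕ → Set V}
    (H : Hist G R n v M) {i j : ℕ} (hij : i ≤ j) (hj : j ≤ n) : M j ⊆ M i := by
  induction j, hij using Nat.le_induction with
  | base => exact subset_rfl
  | succ j hij ih => exact (H.anti j (by omega)).trans (ih (by omega))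

lemma Hist.injOn {G : SimpleGraph V} {R n : ℕ} {v : ℕ → V} {M : ℕ → Set V}
    (H : Hist G R n v M) {i j : ℕ} (hij : i < j) (hj : j < n) : v i ≠ v j := by
  intro h
  apply H.del i (by omega)
  rw [h]
  exact H.anti' (show i + 1 ≤ j by omega) (by omega) (H.mem j hj)

/-- A long history contradicts uniform quasi-wideness. -/
lemma Hist.false {G : SimpleGraph V} {R s N : ℕ} {v : ℕ → V} {M : ℕ → Set V}
    (H : Hist G R N v M)
    (hN : ∀ A : Finset V, N ≤ A.card → ∃ S : Finset V, S.card ≤ s ∧ ∃ B : Finset V, B ⊆ A ∧
      Disjoint B S ∧ 2 * s + 2 ≤ B.card ∧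
      ∀ a ∈ B, ∀ b ∈ B, a ≠ b → ¬ Near G ((S : Set V)ᶜ) R a b) : False := by
  classical
  have hinj : Set.InjOn v (Finset.range N : Set ℕ) := by
    intro i hi j hj hij
    rw [Finset.mem_coe, Finset.mem_range] at hi hj
    rcases lt_trichotomy i j with h | h | h
    · exact absurd hij (H.injOn h hj)
    · exact h
    · exact absurd hij.symm (H.injOn h hi)
  obtain ⟨S, hS, B, hBA, -, hBc, hB⟩ := hN ((Finset.range N).image v) (by
    rw [Finset.card_image_of_injOn hinj, Finset.card_range])
  set I : Finset ℕ := (Finset.range N).filter (fun i => v i ∈ B) with hI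
  have hIB : I.image v = B := by
    ext x
    rw [Finset.mem_image]
    constructor
    · rintro ⟨i, hi, rfl⟩
      exact (Finset.mem_filter.mp hi).2
    · intro hx
      obtain ⟨i, hi, rfl⟩ := Finset.mem_image.mp (hBA hx)
      exact ⟨i, Finset.mem_filter.mpr ⟨hi, hx⟩, rfl⟩
  have hIc : 2 * s + 2 ≤ I.card := by
    rw [← hIB] at hBc
    exact hBc.trans Finset.card_image_le
  set e := I.orderEmbOfCardLe hIc with he
  have heI : ∀ k, e k ∈ I := fun k => I.orderEmbOfCardLe_mem hIc k
  have heN : ∀ k, e k < N := fun k => Finset.mem_range.mp (Finset.mem_filter.mp (heI k)).1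
  have heB : ∀ k, v (e k) ∈ B := fun k => (Finset.mem_filter.mp (heI k)).2
  let l : Fin (s + 1) → Fin (2 * s + 2) := fun a => ⟨2 * a.1, by omega⟩
  let r : Fin (s + 1) → Fin (2 * s + 2) := fun a => ⟨2 * a.1 + 1, by omega⟩
  have hlr : ∀ a, e (l a) < e (r a) := fun a => e.strictMono (by
    rw [Fin.lt_def]
    exact Nat.lt_succ_self _)
  have hx : ∀ a : Fin (s + 1), ∃ x ∈ S, x ∈ M (e (l a)) ∧ x ∉ M (e (r a) + 1) := by
    intro a
    obtain ⟨F, hF1, hF2, hF3⟩ := H.path (e (l a)) (e (r a)) (hlr a) (heN _)
    by_contra hcon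
    push Not at hcon
    apply hB _ (heB (l a)) _ (heB (r a)) (H.injOn (hlr a) (heN _))
    refine hF3.mono le_rfl ?_
    intro x hxF hxS
    exact Set.disjoint_left.mp hF2 hxF (hcon x hxS (hF1 hxF))
  choose x hxS hxM hxn using hx
  have hxne : ∀ a b : Fin (s + 1), a < b → x a ≠ x b := by
    intro a b hab h
    apply hxn a
    rw [h]
    refine H.anti' ?_ (heN _).le (hxM b)
    have : e (r a) < e (l b) := e.strictMono (by
      rw [Fin.lt_def] at hab ⊢
      change 2 * a.1 + 1 < 2 * b.1
      omega)
    omega
  have hxinj : Function.Injective x := by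
    intro a b hab
    rcases lt_trichotomy a b with h | h | h
    · exact absurd hab (hxne a b h)
    · exact h
    · exact absurd hab.symm (hxne b a h)
  have hcard : (Finset.univ.image x).card = s + 1 := by
    rw [Finset.card_image_of_injective _ hxinj, Finset.card_univ, Fintype.card_fin]
  have hsub : Finset.univ.image x ⊆ S := by
    intro y hy
    obtain ⟨a, -, rfl⟩ := Finset.mem_image.mp hy
    exact hxS a
  have := Finset.card_le_card hsub
  omega

lemma Hist.sw {G : SimpleGraph V} {R s N : ℕ}
    (hN : ∀ A : Finset V, N ≤ A.card → ∃ S : Finset V, S.card ≤ s ∧ ∃ B : Finset V, B ⊆ A ∧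
      Disjoint B S ∧ 2 * s + 2 ≤ B.card ∧
      ∀ a ∈ B, ∀ b ∈ B, a ≠ b → ¬ Near G ((S : Set V)ᶜ) R a b) :
    ∀ k n : ℕ, n + k = N → ∀ (v : ℕ → V) (M : ℕ → Set V), Hist G R n v M →
      SW G R (N * (R + 1) + 1) k (M n) := by
  classical
  intro k
  induction k with
  | zero =>
    intro n hn v M H
    rw [add_zero] at hn
    subst hn
    exact (H.false hN).elim
  | succ k ih =>
    intro n hn v M H z hz
    -- the paths from earlier moves
    have hp : ∀ i, i < n → ∃ F : Finset V, F.card ≤ R + 1 ∧ (F : Set V) ⊆ M i ∧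
        Near G (F : Set V) R (v i) z := by
      intro i hi
      obtain ⟨p, hp1, hp2⟩ := H.near i hi z (H.anti' (show i + 1 ≤ n by omega) le_rfl hz)
      refine ⟨p.support.toFinset, ?_, ?_, p, hp1, ?_⟩
      · refine (List.toFinset_card_le _).trans ?_
        rw [Walk.length_support]
        omega
      · intro x hx
        exact hp2 x (by simpa using hx)
      · intro x hx
        simpa using hx
    choose! F hFc hFM hFn using hp
    set W : Finset V := insert z ((Finset.range n).biUnion F) with hW
    have hWc : W.card ≤ N * (R + 1) + 1 := by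
      refine (Finset.card_insert_le _ _).trans ?_
      have h1 : ((Finset.range n).biUnion F).card ≤ n * (R + 1) := by
        have := Finset.card_biUnion_le_card_mul (Finset.range n) F (R + 1)
          (fun i hi => hFc i (Finset.mem_range.mp hi))
        rwa [Finset.card_range] at this
      have h2 : n * (R + 1) ≤ N * (R + 1) := Nat.mul_le_mul_right _ (by omega)
      omega
    refine ⟨W, hWc, ?_⟩
    set M' : ℕ → Set V := fun i => if i = n + 1 then {x | Near G (M n) R z x} \ W else M i with hM'
    set v' : ℕ → V := fun i => if i = n then z else v i with hv'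
    have hM1 : M' (n + 1) = {x | Near G (M n) R z x} \ W := by simp [hM']
    have hM2 : ∀ i, i ≤ n → M' i = M i := by
      intro i hi
      have : i ≠ n + 1 := by omega
      simp [hM', this]
    have hv1 : v' n = z := by simp [hv']
    have hv2 : ∀ i, i < n → v' i = v i := by
      intro i hi
      have : i ≠ n := by omega
      simp [hv', this]
    rw [← hM1]
    apply ih (n + 1) (by omega) v' M'
    constructor
    · intro i hi
      rcases Nat.lt_succ_iff_lt_or_eq.mp hi with h | h
      · rw [hv2 i h, hM2 i h.le]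
        exact H.mem i h
      · rw [h, hv1, hM2 n le_rfl]
        exact hz
    · intro i hi
      rcases Nat.lt_succ_iff_lt_or_eq.mp hi with h | h
      · rw [hM2 i h.le, hM2 (i + 1) h]
        exact H.anti i h
      · rw [h, hM1, hM2 n le_rfl]
        exact fun x hx => Near.right_mem hx.1
    · intro i hi x hx
      rcases Nat.lt_succ_iff_lt_or_eq.mp hi with h | h
      · rw [hM2 (i + 1) h] at hx
        rw [hM2 i h.le, hv2 i h]
        exact H.near i h x hx
      · subst h
        rw [hM1] at hx
        rw [hv1, hM2 i le_rfl]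
        exact hx.1
    · intro i hi
      rcases Nat.lt_succ_iff_lt_or_eq.mp hi with h | h
      · rw [hM2 (i + 1) h, hv2 i h]
        exact H.del i h
      · subst h
        rw [hM1, hv1]
        exact fun hx => hx.2 (by simp [hW])
    · intro i j hij hj
      rcases Nat.lt_succ_iff_lt_or_eq.mp hj with h | h
      · rw [hM2 i (by omega), hM2 (j + 1) h, hv2 i (by omega), hv2 j h]
        exact H.path i j hij h
      · subst h
        refine ⟨(F i : Set V), ?_, ?_, ?_⟩
        · rw [hM2 i hij.le]
          exact hFM i hij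
        · rw [hM1, Set.disjoint_left]
          intro x hx hx2
          apply hx2.2
          rw [hW]
          apply Finset.mem_coe.mpr
          exact Finset.mem_insert_of_mem
            (Finset.mem_biUnion.mpr ⟨i, Finset.mem_range.mpr hij, Finset.mem_coe.mp hx⟩)
        · rw [hv2 i hij, hv1]
          exact hFn i hij

/-- Module M4. -/
theorem game (t : ℕ → ℕ) (h : UQW t) : GameBound t := by
  intro R
  obtain ⟨s, hs⟩ := h R
  obtain ⟨N, hN⟩ := hs (2 * s + 2)
  refine ⟨N, N * (R + 1) + 1, fun V G hG => ?_⟩
  rcases isEmpty_or_nonempty V with hV | ⟨⟨v0⟩⟩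
  · -- no vertices
    have : ∀ k (M : Set V), SW G R (N * (R + 1) + 1) k M := by
      intro k
      cases k with
      | zero =>
        intro M
        exact Set.eq_empty_of_isEmpty M
      | succ k =>
        intro M z
        exact (hV.false z).elim
    exact this _ _
  · have := Hist.sw (G := G) (R := R) (s := s) (N := N) (hN V G hG) N 0 (by omega)
      (fun _ => v0) (fun _ => Set.univ)
      ⟨fun i hi => absurd hi (Nat.not_lt_zero i), fun i hi => absurd hi (Nat.not_lt_zero i),
        fun i hi => absurd hi (Nat.not_lt_zero i), fun i hi => absurd hi (Nat.not_lt_zero i),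
        fun i j _ hj => absurd hj (Nat.not_lt_zero j)⟩
    exact this

end Pool.Agent.Helper96.HD
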